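import Pool.Agent.Run7.h638.WR.Iface

/-!
# Project WR (helper638), piece N2: one step of the machine in the tiling
-/

set_option autoImplicit false

namespace Pool.Agent.Run7.h638.WR

namespace N2p

variable {K Γ Q : Type}

/-- the state of the control tile determines the states of the cells as long as they are cells -/
theorem HR_ctl {s : St} {q : Q} {b : Base K Γ Q} (h : HR (.ctl s q) b) :
    ∃ l, b = .cell s q l := by
  cases b with
  | J => exact absurd h (by simp [HR])
  | ctl s' q' => exact absurd h (by simp [HR])
  | cell s' q' l =>
    simp only [HR] at h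
    exact ⟨l, by rw [h.1, h.2]⟩

theorem row_cell_of_not_J {θ : ℕ → Base K Γ Q} (hR : ∀ j, HR (θ j) (θ (j + 1))) {s : St} {q : Q}
    {l : K → Option Γ} {j : ℕ} (h : θ j = .cell s q l) (hJ : θ (j + 1) ≠ .J) :
    ∃ s' l', θ (j + 1) = .cell s' q l' := by
  have h1 := hR j
  rw [h] at h1
  cases h2 : θ (j + 1) with
  | J => exact absurd h2 hJ
  | ctl s' q' =>
    rw [h2] at h1
    exact absurd h1 (by simp [HR])
  | cell s' q' l' =>
    rw [h2] at h1
    simp only [HR] at h1
    exact ⟨s', l', by rw [h1.1]⟩

end N2p

open N2p

variable {K Γ Q : Type}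

/-- the columns of the new row, from the control tile on: what the vertical rule says -/
theorem N2_core [DecidableEq K] (prog : Q → Op K Γ Q)
    (θ θ' : ℕ → Base K Γ Q) (c c' : Q × (K → List Γ))
    (_hR : ∀ j, HR (θ j) (θ (j + 1))) (hR' : ∀ j, HR (θ' j) (θ' (j + 1)))
    (hV : ∀ j, VR prog (θ j) (θ (j + 1)) (θ' j) (θ' (j + 1)))
    (hrow : RowOk θ c) (hstep : stepM prog c = some c') : RowOk θ' c' := by
  obtain ⟨⟨s0, h0⟩, hcell⟩ := hrow
  obtain ⟨q, S⟩ := c
  simp only at h0 hcell
  -- the cell in column 1
  have h1 : ∃ s, θ 1 = .cell s q (fun k => (S k)[1 - 1]?) := by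
    rcases hcell with h | ⟨w, hw, h, -, -⟩
    · exact h 1 le_rfl
    · exact h 1 le_rfl hw
  obtain ⟨s1, h1⟩ := h1
  have hV0 := hV 0
  rw [h0, zero_add, h1] at hV0
  unfold stepM at hstep
  simp only at hstep
  cases hp : prog q with
  | halt acc => rw [hp] at hstep; simp at hstep
  | push k o q' =>
    rw [hp] at hstep
    simp only [Option.some.injEq] at hstep
    subst hstep
    simp only [VR, hp] at hV0
    obtain ⟨m0, e0, e1, em⟩ := hV0
    -- the inner columns
    have hin : ∀ j, 1 ≤ j → ∀ s s', θ j = .cell s q (fun k => (S k)[j - 1]?) →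
        θ (j + 1) = .cell s' q (fun k => (S k)[j + 1 - 1]?) →
        ∃ m m' : K → Option Γ, θ' j = .cell .run q' m ∧ θ' (j + 1) = .cell .run q' m' ∧
          m' k = (S k)[j - 1]? ∧ ∀ k', k' ≠ k → m k' = (S k')[j - 1]? := by
      intro j _ s s' ha hb
      have := hV j
      rw [ha, hb] at this
      simp only [VR, hp] at this
      exact this
    refine ⟨⟨.run, e0⟩, ?_⟩
    -- letters of the new stack
    have hnew0 : ∀ j, j = 1 → (Function.update S k (o :: S k) k)[j - 1]? = some o := by
      rintro j rfl
      simp
    have hnew : ∀ j, 2 ≤ j → (Function.update S k (o :: S k) k)[j - 1]? = (S k)[j - 1 - 1]? := by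
      intro j hj
      obtain ⟨i, rfl⟩ : ∃ i, j = i + 2 := ⟨j - 2, by omega⟩
      simp
    have hold : ∀ k' j, k' ≠ k → (Function.update S k (o :: S k) k')[j - 1]? = (S k')[j - 1]? := by
      intro k' j hk
      rw [Function.update_of_ne hk]
    rcases hcell with hall | ⟨w, hw, hcw, hJ, hlen⟩
    · left
      -- the letter of `k` in column `j`
      have hk : ∀ j, 1 ≤ j → ∀ s q'' m, θ' j = .cell s q'' m → q'' = q' →
          m k = (Function.update S k (o :: S k) k)[j - 1]? := by
        intro j hj s q'' m hm _
        rcases Nat.eq_or_lt_of_le hj with h | h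
        · subst h
          rw [e1] at hm
          simp only [Base.cell.injEq] at hm
          rw [← hm.2.2, em, hnew0 1 rfl]
        · obtain ⟨i, rfl⟩ : ∃ i, j = i + 1 := ⟨j - 1, by omega⟩
          obtain ⟨sa, ha⟩ := hall i (by omega)
          obtain ⟨sc, hb⟩ := hall (i + 1) (by omega)
          obtain ⟨m1, m2, -, f2, f3, -⟩ := hin i (by omega) sa sc ha hb
          rw [f2] at hm
          simp only [Base.cell.injEq] at hm
          rw [← hm.2.2, f3, hnew (i + 1) (by omega)]
          rfl
      intro j hj
      obtain ⟨sa, ha⟩ := hall j hj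
      obtain ⟨sc, hb⟩ := hall (j + 1) (by omega)
      obtain ⟨m, m', f1, -, -, f4⟩ := hin j hj sa sc ha hb
      refine ⟨.run, ?_⟩
      rw [f1]
      congr 1
      funext k'
      by_cases h : k' = k
      · subst h
        exact hk j hj _ _ _ f1 rfl
      · rw [f4 k' h, hold k' j h]
    · right
      have hk : ∀ j, 1 ≤ j → j ≤ w → ∀ s q'' m, θ' j = .cell s q'' m → q'' = q' →
          m k = (Function.update S k (o :: S k) k)[j - 1]? := by
        intro j hj hjw s q'' m hm _
        rcases Nat.eq_or_lt_of_le hj with h | h
        · subst h
          rw [e1] at hm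
          simp only [Base.cell.injEq] at hm
          rw [← hm.2.2, em, hnew0 1 rfl]
        · obtain ⟨i, rfl⟩ : ∃ i, j = i + 1 := ⟨j - 1, by omega⟩
          obtain ⟨sa, ha⟩ := hcw i (by omega) (by omega)
          obtain ⟨sc, hb⟩ := hcw (i + 1) (by omega) hjw
          obtain ⟨m1, m2, -, f2, f3, -⟩ := hin i (by omega) sa sc ha hb
          rw [f2] at hm
          simp only [Base.cell.injEq] at hm
          rw [← hm.2.2, f3, hnew (i + 1) (by omega)]
          rfl
      -- the last column
      obtain ⟨sw, hwc⟩ := hcw w hw le_rfl
      have hVw := hV w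
      rw [hwc, hJ] at hVw
      simp only [VR, hp] at hVw
      obtain ⟨g1, g2, mw, g3, g4⟩ := hVw
      refine ⟨w, hw, ?_, g1, ?_⟩
      · intro j hj hjw
        rcases Nat.eq_or_lt_of_le hjw with h | h
        · subst h
          refine ⟨.run, ?_⟩
          rw [g3]
          congr 1
          funext k'
          by_cases h : k' = k
          · subst h
            exact hk j hj le_rfl _ _ _ g3 rfl
          · rw [g4 k' h, hold k' j h]
        · obtain ⟨sa, ha⟩ := hcw j hj hjw
          obtain ⟨sc, hb⟩ := hcw (j + 1) (by omega) (by omega)
          obtain ⟨m, m', f1, -, -, f4⟩ := hin j hj sa sc ha hb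
          refine ⟨.run, ?_⟩
          rw [f1]
          congr 1
          funext k'
          by_cases h : k' = k
          · subst h
            exact hk j hj hjw _ _ _ f1 rfl
          · rw [f4 k' h, hold k' j h]
      · intro k'
        dsimp only
        by_cases h : k' = k
        · subst h
          rw [Function.update_self, List.length_cons]
          rw [List.getElem?_eq_none_iff] at g2
          omega
        · rw [Function.update_of_ne h]
          exact hlen k'
  | pop k f =>
    rw [hp] at hstep
    simp only at hstep
    cases hS : S k with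
    | nil => rw [hS] at hstep; simp at hstep
    | cons o z =>
      rw [hS] at hstep
      simp only [Option.some.injEq] at hstep
      subst hstep
      simp only [VR, hp] at hV0
      obtain ⟨m0, o', eo, e0, e1⟩ := hV0
      have hoo : o' = o := by
        rw [hS] at eo
        simpa using eo.symm
      subst hoo
      refine ⟨⟨.run, e0⟩, ?_⟩
      have hin : ∀ j, 1 ≤ j → ∀ s s', θ j = .cell s q (fun k => (S k)[j - 1]?) →
          θ (j + 1) = .cell s' q (fun k => (S k)[j + 1 - 1]?) →
          ∃ (q' : Q) (m m' : K → Option Γ), θ' j = .cell .run q' m ∧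
            θ' (j + 1) = .cell .run q' m' ∧
            m k = (S k)[j + 1 - 1]? ∧ ∀ k', k' ≠ k → m k' = (S k')[j - 1]? := by
        intro j _ s s' ha hb
        have := hV j
        rw [ha, hb] at this
        simp only [VR, hp] at this
        exact this
      have hnew : ∀ j, 1 ≤ j → (Function.update S k z k)[j - 1]? = (S k)[j]? := by
        intro j hj
        obtain ⟨i, rfl⟩ : ∃ i, j = i + 1 := ⟨j - 1, by omega⟩
        rw [hS]
        simp
      have hold : ∀ k' j, k' ≠ k → (Function.update S k z k')[j - 1]? = (S k')[j - 1]? := by
        intro k' j hk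
        rw [Function.update_of_ne hk]
      -- the states agree
      have hq : ∀ j, 1 ≤ j → (∀ i, 1 ≤ i → i < j → θ' (i + 1) ≠ .J) →
          ∃ s l, θ' j = .cell s (f o') l := by
        intro j hj
        induction j, hj using Nat.le_induction with
        | base => intro _; exact ⟨_, _, e1⟩
        | succ j hj ih =>
          intro hne
          obtain ⟨s, l, hsl⟩ := ih fun i hi hij => hne i hi (by omega)
          exact row_cell_of_not_J hR' hsl (hne j hj (by omega))
      rcases hcell with hall | ⟨w, hw, hcw, hJ, hlen⟩
      · left
        have hnJ : ∀ i, 1 ≤ i → θ' (i + 1) ≠ .J := by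
          intro i hi
          obtain ⟨sa, ha⟩ := hall i hi
          obtain ⟨sc, hb⟩ := hall (i + 1) (by omega)
          obtain ⟨q'', m, m', -, f2, -, -⟩ := hin i hi sa sc ha hb
          rw [f2]
          simp
        intro j hj
        obtain ⟨sa, ha⟩ := hall j hj
        obtain ⟨sc, hb⟩ := hall (j + 1) (by omega)
        obtain ⟨q'', m, m', f1, -, f3, f4⟩ := hin j hj sa sc ha hb
        obtain ⟨s, l, hsl⟩ := hq j hj fun i hi _ => hnJ i hi
        have hqq : q'' = f o' := by
          rw [hsl] at f1
          simp only [Base.cell.injEq] at f1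
          exact f1.2.1.symm
        refine ⟨.run, ?_⟩
        rw [f1, hqq]
        congr 1
        funext k'
        by_cases h : k' = k
        · subst h
          rw [f3, hnew j hj]
          rfl
        · rw [f4 k' h, hold k' j h]
      · right
        obtain ⟨sw, hwc⟩ := hcw w hw le_rfl
        have hVw := hV w
        rw [hwc, hJ] at hVw
        simp only [VR, hp] at hVw
        obtain ⟨g1, qw, mw, g3, g4, g5⟩ := hVw
        have hnJ : ∀ i, 1 ≤ i → i < w → θ' (i + 1) ≠ .J := by
          intro i hi hiw
          obtain ⟨sa, ha⟩ := hcw i hi hiw.le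
          obtain ⟨sc, hb⟩ := hcw (i + 1) (by omega) (by omega)
          obtain ⟨q'', m, m', -, f2, -, -⟩ := hin i hi sa sc ha hb
          rw [f2]
          simp
        refine ⟨w, hw, ?_, g1, ?_⟩
        · intro j hj hjw
          obtain ⟨s, l, hsl⟩ := hq j hj fun i hi hij => hnJ i hi (by omega)
          rcases Nat.eq_or_lt_of_le hjw with h | h
          · subst h
            have hqq : qw = f o' := by
              rw [hsl] at g3
              simp only [Base.cell.injEq] at g3
              exact g3.2.1.symm
            refine ⟨.run, ?_⟩
            rw [g3, hqq]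
            congr 1
            funext k'
            by_cases h : k' = k
            · subst h
              rw [g4, hnew j hj]
              symm
              rw [List.getElem?_eq_none_iff]
              exact hlen k'
            · rw [g5 k' h, hold k' j h]
          · obtain ⟨sa, ha⟩ := hcw j hj hjw
            obtain ⟨sc, hb⟩ := hcw (j + 1) (by omega) (by omega)
            obtain ⟨q'', m, m', f1, -, f3, f4⟩ := hin j hj sa sc ha hb
            have hqq : q'' = f o' := by
              rw [hsl] at f1
              simp only [Base.cell.injEq] at f1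
              exact f1.2.1.symm
            refine ⟨.run, ?_⟩
            rw [f1, hqq]
            congr 1
            funext k'
            by_cases h : k' = k
            · subst h
              rw [f3, hnew j hj]
              rfl
            · rw [f4 k' h, hold k' j h]
        · intro k'
          dsimp only
          by_cases h : k' = k
          · subst h
            rw [Function.update_self]
            have := hlen k'
            rw [hS, List.length_cons] at this
            omega
          · rw [Function.update_of_ne h]
            exact hlen k'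

theorem t_N2 : N2 := by
  intro K Γ Q _ prog θ θ' c c' hR hR' hV hrow hstep
  exact N2_core prog θ θ' c c' hR hR' hV hrow hstep

end Pool.Agent.Run7.h638.WR
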